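import Pool.Agent.W58.GU.Stm

set_option autoImplicit false

namespace Pool.Agent.W585.GU

open Pool.Agent.W58.GU Finset

theorem bi (hstep : S_STEP) : S_BI := by
  intro P C ε E0 x j hC hε hF J nn q hnn hn hq hhi s
  have hnn' : (1 : ℝ) ≤ nn := by exact_mod_cast hnn
  have h3 : (1 : ℝ) ≤ 3 * nn := by linarith
  induction s with
  | zero =>
    intro f hf E hE
    have h1 : |pr f (∑ k ∈ E, x k : ℕ →₀ ℝ)| ≤ C * E.card := by
      rw [pr_fsum]
      refine (Finset.abs_sum_le_sum_abs _ _).trans ?_
      calc ∑ k ∈ E, |pr f (x k)| ≤ ∑ _k ∈ E, C :=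
            Finset.sum_le_sum fun k hk => hF.r1 k (hE hk) f hf
        _ = C * E.card := by rw [Finset.sum_const, nsmul_eq_mul]; ring
    refine h1.trans ?_
    have h2 : (1 : ℝ) ≤ max ((1 / 2 : ℝ) ^ 0) q := by
      rw [pow_zero]
      exact le_max_left _ _
    have hc : (0 : ℝ) ≤ E.card := Nat.cast_nonneg _
    refine mul_le_mul_of_nonneg_left ?_ hC
    have h4 : (E.card : ℝ) ≤ max ((1 / 2 : ℝ) ^ 0) q * E.card := by nlinarith
    have h5 : 0 ≤ ε * E.card := mul_nonneg hε hc
    have h6 : (0 : ℝ) ≤ (3 * nn : ℝ) ^ 0 := by positivity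
    linarith
  | succ s ih =>
    intro f hf E hE
    have hc : (0 : ℝ) ≤ E.card := Nat.cast_nonneg _
    have hB : (1 : ℝ) ≤ (3 * nn : ℝ) ^ (s + 1) := one_le_pow₀ h3
    have hmx : 0 ≤ max ((1 / 2 : ℝ) ^ (s + 1)) q := le_max_of_le_right hq
    have h5 : 0 ≤ ε * E.card := mul_nonneg hε hc
    have h6 : 0 ≤ max ((1 / 2 : ℝ) ^ (s + 1)) q * E.card := mul_nonneg hmx hc
    obtain ⟨w, hw⟩ := hf
    rcases w with _ | i
    · -- units
      have h1 : |pr f (∑ k ∈ E, x k : ℕ →₀ ℝ)| ≤ C := by
        cases hw with
        | unit a t ht =>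
          rw [pr_single, abs_mul]
          have ht1 : |(t : ℝ)| ≤ 1 := by
            rcases ht with h | h | h <;> simp [h]
          have h7 : |(∑ k ∈ E, x k : ℕ →₀ ℝ) a| ≤ C := by
            rw [Finsupp.finsetSum_apply]
            by_cases hex : ∃ k ∈ E, x k a ≠ 0
            · obtain ⟨k, hk, hka⟩ := hex
              rw [Finset.sum_eq_single k]
              · have := hF.r1 k (hE hk) _ (InK.single P a)
                rw [pr_single] at this
                simpa using this
              · intro l hl hlk
                by_contra hne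
                rcases lt_or_gt_of_ne hlk with h | h
                · exact absurd (hF.succ l (hE hl) k (hE hk) h a (Finsupp.mem_support_iff.mpr hne) a
                    (Finsupp.mem_support_iff.mpr hka)) (lt_irrefl _)
                · exact absurd (hF.succ k (hE hk) l (hE hl) h a (Finsupp.mem_support_iff.mpr hka) a
                    (Finsupp.mem_support_iff.mpr hne)) (lt_irrefl _)
              · intro h; exact absurd hk h
            · push Not at hex
              rw [Finset.sum_eq_zero hex]
              simpa using hC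
          calc |(t : ℝ)| * |(∑ k ∈ E, x k : ℕ →₀ ℝ) a| ≤ 1 * C :=
                mul_le_mul ht1 h7 (abs_nonneg _) zero_le_one
            _ = C := one_mul C
      refine h1.trans ?_
      calc C = C * 1 := (mul_one C).symm
        _ ≤ _ := mul_le_mul_of_nonneg_left (by linarith) hC
    · by_cases hi : J ≤ i
      · refine (hhi i hi f hw E hE).trans (mul_le_mul_of_nonneg_left ?_ hC)
        have h8 : q * E.card ≤ max ((1 / 2 : ℝ) ^ (s + 1)) q * E.card :=
          mul_le_mul_of_nonneg_right (le_max_right _ _) hc
        linarith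
      · push Not at hi
        have hp0 : 0 ≤ max ((1 / 2 : ℝ) ^ s) q := le_max_of_le_right hq
        have h9 := hstep P C ε E0 x j hC hε hF ((3 * nn : ℝ) ^ s) (max ((1 / 2 : ℝ) ^ s) q)
          (one_le_pow₀ h3) hp0 ih nn i hnn (hn i hi) f hw E hE
        refine h9.trans (mul_le_mul_of_nonneg_left ?_ hC)
        have hm : (2 : ℝ) ≤ P.m i := by exact_mod_cast P.two_le i
        have h10 : max ((1 / 2 : ℝ) ^ s) q / P.m i ≤ max ((1 / 2 : ℝ) ^ (s + 1)) q := by
          calc max ((1 / 2 : ℝ) ^ s) q / P.m i ≤ max ((1 / 2 : ℝ) ^ s) q / 2 :=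
                div_le_div_of_nonneg_left hp0 (by norm_num) hm
            _ ≤ max ((1 / 2 : ℝ) ^ (s + 1)) q := by
                rcases le_total ((1 / 2 : ℝ) ^ s) q with h | h
                · rw [max_eq_right h]
                  refine le_max_of_le_right ?_
                  linarith
                · rw [max_eq_left h]
                  refine le_max_of_le_left ?_
                  rw [pow_succ]
                  linarith
        have h11 : max ((1 / 2 : ℝ) ^ s) q / P.m i * E.card ≤
            max ((1 / 2 : ℝ) ^ (s + 1)) q * E.card := mul_le_mul_of_nonneg_right h10 hc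
        have h12 : (3 * nn : ℝ) * (3 * nn : ℝ) ^ s = (3 * nn : ℝ) ^ (s + 1) := by
          rw [pow_succ]; ring
        linarith

end Pool.Agent.W585.GU

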